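import Pool.Agent.Lib.helper10.Kit

namespace Pool.Agent.Results.MP_93e790_lc.W1Hard

open Pool.Agent.Cx Pool.Agent.Cis Finset

/-- the subgraph of `G` induced on the set is built by (O1)-(O4), with `|V(H)| ≤ w` in (O4) -/
inductive Built {V : Type} (G : SimpleGraph V) (w : ℕ) : Set V → Prop
  | single (v : V) : Built G w {v}
  | union {A B : Set V} : Built G w A → Built G w B → Disjoint A B →
      (∀ u ∈ A, ∀ v ∈ B, ¬ G.Adj u v) → Built G w (A ∪ B)
  | join {A B : Set V} : Built G w A → Built G w B → Disjoint A B →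
      (∀ u ∈ A, ∀ v ∈ B, G.Adj u v) → Built G w (A ∪ B)
  | subst {m : ℕ} (H : SimpleGraph (Fin m)) (P : Fin m → Set V) : 0 < m → m ≤ w →
      (∀ i, Built G w (P i)) → (∀ i j, i ≠ j → Disjoint (P i) (P j)) →
      (∀ i j, i ≠ j → ∀ u ∈ P i, ∀ v ∈ P j, (G.Adj u v ↔ H.Adj i j)) → Built G w (⋃ i, P i)

/-- modular-width -/
noncomputable def mw {V : Type} (G : SimpleGraph V) : ℕ := sInf {w | Built G w Set.univ}

/-- at most `k` vertices induce at least `t` edges -/
def Dense (z : List (List Bool) × ℕ × ℕ) : Prop :=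
  ∃ S : Finset (Fin z.1.length), S.card ≤ z.2.1 ∧ z.2.2 ≤ ((graphOf z.1).induce S).edgeSet.ncard

section
variable {V : Type} {G : SimpleGraph V} {w : ℕ}

lemma cup {A B : Set V} (hA : A = ∅ ∨ Built G w A) (hB : B = ∅ ∨ Built G w B) (d : Disjoint A B)
    (h : (∀ u ∈ A, ∀ v ∈ B, G.Adj u v) ∨ ∀ u ∈ A, ∀ v ∈ B, ¬ G.Adj u v) :
    A ∪ B = ∅ ∨ Built G w (A ∪ B) := by
  rcases hA with rfl | hA
  · simpa
  rcases hB with rfl | hB
  · simp [hA]
  exact Or.inr (h.elim (.join hA hB d) (.union hA hB d))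

lemma joins [Finite V] (g : V → ℕ) {A : Set V}
    (h1 : ∀ s, {a ∈ A | g a = s} = ∅ ∨ Built G w {a ∈ A | g a = s})
    (h2 : ∀ u ∈ A, ∀ v ∈ A, g u ≠ g v → G.Adj u v) : A = ∅ ∨ Built G w A := by
  have : ∀ N, {a ∈ A | g a < N} = ∅ ∨ Built G w {a ∈ A | g a < N} := fun N => by
    induction N with
    | zero => simp
    | succ N ih =>
      have : {a ∈ A | g a < N + 1} = {a ∈ A | g a < N} ∪ {a ∈ A | g a = N} := by
        ext a; simp only [Set.mem_ofPred_eq, Set.mem_union]; rw [← and_or_left, Nat.lt_succ_iff_lt_or_eq]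
      rw [this]
      exact cup ih (h1 N) (Set.disjoint_left.2 fun a b c => by have := b.2; have := c.2; omega)
        (Or.inl fun u a v b => h2 u a.1 v b.1 (by have := a.2; have := b.2; omega))
  obtain ⟨N, hN⟩ := (Set.finite_range g).bddAbove
  convert this (N + 1) <;> (ext a; simp [hN ⟨a, rfl⟩])

lemma sub1 {A : Set V} (h : A.Subsingleton) : A = ∅ ∨ Built G w A :=
  h.eq_empty_or_singleton.imp_right fun ⟨v, e⟩ => e ▸ .single v

lemma two_edges [DecidableRel G.Adj] (S : Finset V) :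
    (2 * (G.induce S).edgeSet.ncard : ℤ) = ∑ a ∈ S, ∑ b ∈ S, if G.Adj a b then 1 else 0 := by
  classical
  rw [← SimpleGraph.coe_edgeFinset, Set.ncard_coe_finset]
  have := (G.induce (S : Set V)).sum_degrees_eq_twice_card_edges
  rw [← sum_coe_sort S]
  simp only [← sum_coe_sort S (fun b => if G.Adj _ b then (1 : ℤ) else 0)]
  rw [← Nat.cast_ofNat, ← Nat.cast_mul, ← this]
  push_cast
  refine sum_congr rfl fun a _ => ?_
  rw [← SimpleGraph.card_neighborFinset_eq_degree, SimpleGraph.neighborFinset_eq_filter, card_filter]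
  push_cast; rfl

end

lemma alg (k : ℕ) {A E T L β l : ℤ} (a b : ℕ → ℤ) (e : ℕ → ℕ → ℤ) (r : ℤ)
    (h1 : l = k * (A + E + L) + β) (h2 : T + 2 * A + L + β = l) :
    2 * ∑ i ∈ range k, ∑ j ∈ range k, ((A + a i) * (A + b j) + (A + a i) * (E + e i j) +
      (A + b j) * (E + e i j) + (T - r) * (E + e i j)) + ∑ i ∈ range k, (2 * β * a i + k * a i ^ 2) +
      ∑ j ∈ range k, (2 * β * b j + k * b j ^ 2) + ∑ i ∈ range k, ∑ j ∈ range k,
        (2 * β * e i j + e i j ^ 2) =
    k * k * (2 * (A * A + 2 * A * E + T * E) - L * L) + 2 * l * (∑ i ∈ range k, a i + ∑ j ∈ range k, b j +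
      ∑ i ∈ range k, ∑ j ∈ range k, e i j) + ∑ i ∈ range k, ∑ j ∈ range k, (a i + b j + e i j - L) ^ 2 -
      2 * r * ∑ i ∈ range k, ∑ j ∈ range k, (E + e i j) := by
  have : ∑ i ∈ range k, ∑ j ∈ range k, (2 * ((A + a i) * (A + b j) + (A + a i) * (E + e i j) +
      (A + b j) * (E + e i j) + (T - r) * (E + e i j)) + a i ^ 2 + b j ^ 2 + (2 * β * e i j + e i j ^ 2)) =
      ∑ i ∈ range k, ∑ j ∈ range k, ((2 * (A * A + 2 * A * E + T * E) - L * L) + 2 * (A + E + L) * a i +
        2 * (A + E + L) * b j + 2 * l * e i j + (a i + b j + e i j - L) ^ 2 - 2 * r * (E + e i j)) :=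
    sum_congr rfl fun i _ => sum_congr rfl fun j _ => by rw [← h2]; ring
  simp only [sum_add_distrib, sum_sub_distrib, ← mul_sum, sum_const, card_range, nsmul_eq_mul] at this ⊢
  rw [h1] at this ⊢
  linear_combination this

lemma sum_half (g : ℕ → ℤ) (D : ℕ) : ∑ s ∈ range (2 * D), g (s / 2) = 2 * ∑ q ∈ range D, g q := by
  induction D with
  | zero => simp
  | succ D ih =>
    rw [mul_add, mul_one, sum_range_succ, sum_range_succ, sum_range_succ, ih,
      show 2 * D / 2 = D by omega, show (2 * D + 1) / 2 = D by omega]; ring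

lemma quad (w : ℕ → ℕ → ℤ) (hw : ∀ p q, w p q + w q p = 2) (D : ℕ) (z : ℕ → ℤ) :
    2 * ∑ s ∈ range (2 * D), z s * ∑ q ∈ range D, w (s / 2) q = (∑ s ∈ range (2 * D), z s) ^ 2 +
      ∑ s ∈ range (2 * D), ∑ t ∈ range (2 * D), z s * (1 - z t) * w (s / 2) (t / 2) := by
  have h1 : 2 * ∑ s ∈ range (2 * D), ∑ t ∈ range (2 * D), z s * z t * w (s / 2) (t / 2) =
      2 * (∑ s ∈ range (2 * D), z s) ^ 2 := by
    rw [two_mul]
    nth_rw 2 [sum_comm]
    rw [← sum_add_distrib, sq, sum_mul_sum, mul_sum]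
    refine sum_congr rfl fun s _ => ?_
    rw [← sum_add_distrib, mul_sum]
    exact sum_congr rfl fun t _ => by linear_combination z s * z t * hw (s / 2) (t / 2)
  have h2 : 2 * ∑ s ∈ range (2 * D), z s * ∑ q ∈ range D, w (s / 2) q =
      ∑ s ∈ range (2 * D), ∑ t ∈ range (2 * D), (z s * z t * w (s / 2) (t / 2) +
        z s * (1 - z t) * w (s / 2) (t / 2)) := by
    rw [mul_sum]
    refine sum_congr rfl fun s _ => ?_
    rw [mul_left_comm, ← sum_half, mul_sum]
    exact sum_congr rfl fun t _ => by ring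
  simp only [sum_add_distrib] at h2
  linarith

abbrev Vx := (ℕ × ℕ) × ℕ × ℕ

def bet (k W : ℕ) : ℕ := k * ((k * k + k + k) * (2 * (W + 1))) + 2
def cE (k W : ℕ) : ℕ := bet k W + k * (2 * (W + 1))
def cV (k W : ℕ) : ℕ := k * (cE k W + 1)
def lam (k W : ℕ) : ℕ := k * (2 * (W + 1) * cV k W + 2 * (W + 1) * cE k W + 2 * W) + bet k W
def tR (k W : ℕ) : ℕ := lam k W - (2 * (2 * (W + 1) * cV k W) + 2 * W + bet k W)
def len (k W : ℕ) (m : ℕ × ℕ) : ℕ :=
  if m.1 = k + 1 then 1 else if m.1 = k ∧ m.2 = k then k * k * (2 * W) else 2 * (W + 1)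
def cap (k W : ℕ) (m : ℕ × ℕ) : ℕ :=
  if m.1 = k + 1 then tR k W else if m.1 = k ∧ m.2 = k then lam k W
  else if m.1 < k ∧ m.2 < k then cE k W else cV k W
def inM (k : ℕ) (m : ℕ × ℕ) : Prop := (m.1 = k + 1 ∧ m.2 = k + 1) ∨ (m.1 ≤ k ∧ m.2 ≤ k)
def ok (k W : ℕ) (p : Vx) : Prop :=
  inM k p.1 ∧ p.2.1 < len k W p.1 ∧ p.2.2 ≤ cap k W p.1 ∧ ¬ (p.1.1 = k + 1 ∧ p.2.2 = 0)
def star (c : ℕ × ℕ → ℕ → ℕ) (p q : Vx) : Prop :=
  p.1 = q.1 ∧ p.2.1 = q.2.1 ∧ p.2.2 = 0 ∧ 1 ≤ q.2.2 ∧ q.2.2 ≤ c p.1 p.2.1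
def lk (k : ℕ) (m m' : ℕ × ℕ) : Prop :=
  (m.1 < k ∧ m.2 = k ∧ m'.1 = k ∧ m'.2 < k) ∨ (m'.1 < k ∧ m'.2 < k ∧
    ((m.1 = m'.1 ∧ m.2 = k) ∨ (m.1 = k ∧ m.2 = m'.2) ∨ (m.1 = k + 1 ∧ m.2 = k + 1)))
def adj (k : ℕ) (c : ℕ × ℕ → ℕ → ℕ) (p q : Vx) : Prop :=
  p ≠ q ∧ ¬ star c p q ∧ ¬ star c q p ∧ ¬ lk k p.1 q.1 ∧ ¬ lk k q.1 p.1

instance (k : ℕ) : DecidablePred (inM k) := fun _ => by unfold inM; infer_instance
instance (k W : ℕ) : DecidablePred (ok k W) := fun _ => by unfold ok; infer_instance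
instance (c : ℕ × ℕ → ℕ → ℕ) : DecidableRel (star c) := fun _ _ => by unfold star; infer_instance
instance (k : ℕ) : DecidableRel (lk k) := fun _ _ => by unfold lk; infer_instance
instance (k : ℕ) (c : ℕ × ℕ → ℕ → ℕ) : DecidableRel (adj k c) := fun _ _ => by
  unfold adj; infer_instance

def mods (k : ℕ) : Finset (ℕ × ℕ) := insert (k + 1, k + 1) (range (k + 1) ×ˢ range (k + 1))

lemma mem_mods {k : ℕ} {m : ℕ × ℕ} : m ∈ mods k ↔ inM k m := by
  simp [mods, inM, Prod.ext_iff]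

lemma sum_mods (k : ℕ) (g : ℕ × ℕ → ℤ) : ∑ m ∈ mods k, g m = g (k + 1, k + 1) + g (k, k) +
    ∑ i ∈ range k, g (i, k) + ∑ j ∈ range k, g (k, j) + ∑ i ∈ range k, ∑ j ∈ range k, g (i, j) := by
  rw [mods, sum_insert (by simp), sum_product]
  simp only [sum_range_succ, sum_add_distrib]; ring

section
variable (k W : ℕ) (c : ℕ × ℕ → ℕ → ℕ) (U : Finset Vx)

def uu (m : ℕ × ℕ) (s q : ℕ) : ℤ := if (m, s, q) ∈ U then 1 else 0
def xx (m : ℕ × ℕ) : ℤ := ∑ p ∈ U, if p.1 = m then 1 else 0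
def ZZ (m : ℕ × ℕ) : ℤ := ∑ s ∈ range (len k W m), uu U m s 0
def rho (m : ℕ × ℕ) : ℤ := ∑ s ∈ range (len k W m), ∑ q ∈ range (cap k W m), (1 - uu U m s (q + 1))
def hh (m : ℕ × ℕ) : ℤ := ∑ s ∈ range (len k W m), uu U m s 0 * ∑ q ∈ range (c m s), uu U m s (q + 1)
def HH (m : ℕ × ℕ) : ℤ := ∑ s ∈ range (len k W m), uu U m s 0 * c m s
def cross : ℤ := ∑ i ∈ range k, ∑ j ∈ range k, (xx U (i, k) * xx U (k, j) + xx U (i, k) * xx U (i, j) +
  xx U (k, j) * xx U (i, j) + xx U (k + 1, k + 1) * xx U (i, j))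

lemma uu01 (m : ℕ × ℕ) (s q : ℕ) : uu U m s q = 0 ∨ uu U m s q = 1 := by
  unfold uu; split_ifs <;> simp

lemma rho_nn (m : ℕ × ℕ) : 0 ≤ rho k W U m :=
  sum_nonneg fun s _ => sum_nonneg fun q _ => by have := uu01 U m s (q + 1); omega

lemma ZZ_bd (m : ℕ × ℕ) : 0 ≤ ZZ k W U m ∧ ZZ k W U m ≤ len k W m :=
  ⟨sum_nonneg fun s _ => by have := uu01 U m s 0; omega, (sum_le_card_nsmul _ _ 1 fun s _ => by
    have := uu01 U m s 0; omega).trans (by simp)⟩

lemma hh_le (m : ℕ × ℕ) : hh k W c U m ≤ HH k W c U m :=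
  sum_le_sum fun s _ => mul_le_mul_of_nonneg_left ((sum_le_card_nsmul _ _ 1 fun q _ => by
    have := uu01 U m s (q + 1); omega).trans (by simp)) (by have := uu01 U m s 0; omega)

lemma hh_nn (m : ℕ × ℕ) : 0 ≤ hh k W c U m :=
  sum_nonneg fun s _ => mul_nonneg (by have := uu01 U m s 0; omega)
    (sum_nonneg fun q _ => by have := uu01 U m s (q + 1); omega)

lemma hh_ge (m : ℕ × ℕ) (h : ∀ s, c m s ≤ cap k W m) :
    HH k W c U m - rho k W U m ≤ hh k W c U m := by
  rw [HH, rho, ← sum_sub_distrib]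
  refine sum_le_sum fun s _ => ?_
  have n : ∀ q, 0 ≤ 1 - uu U m s (q + 1) := fun q => by have := uu01 U m s (q + 1); omega
  have a := sum_le_sum_of_subset_of_nonneg (range_mono (h s)) fun q _ _ => n q
  have b := sum_nonneg (s := range (cap k W m)) fun q _ => n q
  rw [sum_sub_distrib, sum_const, card_range, nsmul_one] at a
  rcases uu01 U m s 0 with e | e <;> rw [e] <;> omega

lemma pick (a b : ℕ) (P : Prop) [Decidable P] : ∑ i ∈ range k, ∑ j ∈ range k,
    (if i = a ∧ j = b ∧ P then (1 : ℤ) else 0) = if a < k ∧ b < k ∧ P then 1 else 0 := by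
  simp only [ite_and, sum_ite_irrel, sum_ite_eq', sum_const_zero, mem_range]

lemma lk_sum : ∑ p ∈ U, ∑ q ∈ U, (if lk k p.1 q.1 then (1 : ℤ) else 0) = cross k U := by
  simp only [cross, xx, sum_mul_sum, ← sum_add_distrib]
  simp_rw [sum_comm (s := range k) (t := U)]
  refine sum_congr rfl fun ⟨⟨a, b⟩, _⟩ _ => sum_congr rfl fun ⟨⟨c, d⟩, _⟩ _ => ?_
  trans ∑ i ∈ range k, ∑ j ∈ range k, ((if i = a ∧ j = d ∧ b = k ∧ c = k then 1 else 0) +
    (if i = c ∧ j = d ∧ a = c ∧ b = k then 1 else 0) + (if i = c ∧ j = d ∧ a = k ∧ b = d then 1 else 0) +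
    (if i = c ∧ j = d ∧ a = k + 1 ∧ b = k + 1 then 1 else 0))
  · simp only [sum_add_distrib, pick, lk]
    split_ifs <;> omega
  · refine sum_congr rfl fun i _ => sum_congr rfl fun j _ => ?_
    simp only [Prod.mk.injEq, ite_mul, one_mul, zero_mul, ← ite_and]
    congr 1; congr 1; congr 1
    all_goals exact if_congr (by omega) rfl rfl

lemma star_in (p : Vx) : ∑ q ∈ U, (if star c p q then (1 : ℤ) else 0) =
    if p.2.2 = 0 then ∑ q ∈ range (c p.1 p.2.1), uu U p.1 p.2.1 (q + 1) else 0 := by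
  split_ifs with h
  · simp only [uu, ← sum_filter]
    refine sum_nbij' (fun q => q.2.2 - 1) (fun q => (p.1, p.2.1, q + 1)) ?_ ?_ ?_ ?_ (by simp)
    · rintro ⟨m, s, q⟩ e
      simp only [mem_filter, star, mem_range] at e ⊢
      obtain ⟨e, rfl, rfl, -, e1, e2⟩ := e
      exact ⟨by omega, by rwa [Nat.sub_add_cancel e1]⟩
    · intro q e
      simp only [mem_filter, star, mem_range] at e ⊢
      exact ⟨e.2, trivial, trivial, h, by omega, by omega⟩
    · rintro ⟨m, s, q⟩ e
      simp only [mem_filter, star] at e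
      obtain ⟨e, rfl, rfl, -, e1, e2⟩ := e
      simp [Nat.sub_add_cancel e1]
    · simp
  · simp [star, h]

variable {k W U} (hU : ∀ p ∈ U, ok k W p)
include hU

lemma sumU (g : Vx → ℤ) : ∑ p ∈ U, g p = ∑ m ∈ mods k, ∑ s ∈ range (len k W m),
    ∑ q ∈ range (cap k W m + 1), uu U m s q * g (m, s, q) := by
  rw [sum_finset_product U (mods k) (fun m => (range (len k W m) ×ˢ range (cap k W m + 1)).filter
    fun a => (m, a) ∈ U) fun p => ⟨fun h => by
      have := hU p h; simp [mem_mods, this.1, this.2.1, this.2.2.1, h],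
      fun h => (mem_filter.1 h.2).2⟩]
  simp [sum_filter, sum_product, uu]

lemma xx_eq {m : ℕ × ℕ} (hm : inM k m) :
    xx U m = len k W m * cap k W m + (ZZ k W U m - rho k W U m) := by
  rw [xx, sumU hU, sum_eq_single m (fun m' _ e => by simp [e]) fun h => absurd (mem_mods.2 hm) h]
  simp [ZZ, rho, sum_range_succ', sum_add_distrib]; ring

lemma card_eq : (U.card : ℤ) = ∑ m ∈ mods k, xx U m := by
  simp only [xx]
  rw [sum_comm, sum_congr rfl (g := fun _ => 1) fun p h => by simp [mem_mods, (hU p h).1]]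
  simp

lemma total : ∑ p ∈ U, ∑ q ∈ U, (if adj k c p q then (1 : ℤ) else 0) =
    U.card * (U.card - 1) - 2 * (∑ m ∈ mods k, hh k W c U m + cross k U) := by
  have h1 : ∑ p ∈ U, ∑ q ∈ U, (if star c p q then (1 : ℤ) else 0) = ∑ m ∈ mods k, hh k W c U m := by
    simp only [star_in]
    rw [sumU hU]
    simp [hh]
  have h2 := h1
  have h3 := lk_sum k U
  have h4 := h3
  rw [sum_comm] at h2 h4
  have h5 : ∑ p ∈ U, ∑ q ∈ U, (if p = q then (1 : ℤ) else 0) = U.card := by
    rw [sum_congr rfl (g := fun _ => 1) fun p h => by simp [h]]; simp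
  have : ∑ p ∈ U, ∑ q ∈ U, ((if adj k c p q then (1 : ℤ) else 0) + (if p = q then 1 else 0) +
      (if star c p q then 1 else 0) + (if star c q p then 1 else 0) + (if lk k p.1 q.1 then 1 else 0) +
      if lk k q.1 p.1 then 1 else 0) = ∑ p ∈ U, ∑ q ∈ U, 1 :=
    sum_congr rfl fun p _ => sum_congr rfl fun q _ => by
      have l1 : ∀ m m', lk k m m' → ¬ lk k m' m := fun m m' => by unfold lk; omega
      have l2 : ∀ p q, star c p q → ¬ star c q p := fun p q a b => by
        have := a.2.2; have := b.2.2; omega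
      have l3 : ∀ p q, star c p q → ¬ lk k p.1 q.1 ∧ ¬ lk k q.1 p.1 := fun p q a => by
        rw [a.1]; exact ⟨fun h => l1 _ _ h h, fun h => l1 _ _ h h⟩
      by_cases a : p = q
      · subst a
        simp [adj, show ¬ lk k p.1 p.1 from fun h => l1 _ _ h h,
          show ¬ star c p p from fun h => l2 _ _ h h]
      by_cases b : star c p q
      · simp [adj, a, b, l2 _ _ b, l3 _ _ b]
      by_cases d : star c q p
      · simp [adj, a, b, d, l3 _ _ d]
      by_cases e : lk k p.1 q.1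
      · simp [adj, a, b, d, e, l1 _ _ e]
      by_cases f : lk k q.1 p.1 <;> simp [adj, a, b, d, e, f]
  simp only [sum_add_distrib, sum_const, nsmul_eq_mul, mul_one] at this
  linear_combination this - h1 - h2 - h3 - h4 - h5

end

def verts (k W : ℕ) : List Vx :=
  ((List.range (k + 2) ×ˢ List.range (k + 2)) ×ˢ List.range (k * k * (2 * W) + 2 * (W + 1)) ×ˢ
    List.range (tR k W + lam k W + cE k W + cV k W + 1)).filter fun p => decide (ok k W p)

lemma mem_verts {k W : ℕ} {p : Vx} : p ∈ verts k W ↔ ok k W p := by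
  obtain ⟨⟨i, j⟩, s, q⟩ := p
  simp only [verts, List.mem_filter, List.mem_product, List.mem_range, decide_eq_true_eq,
    and_iff_right_iff_imp, ok, inM, len, cap]
  split_ifs <;> omega

lemma pre {k W : ℕ} (Z : ℕ × ℕ → ℕ) (h : ∀ m, inM k m → Z m ≤ len k W m ∧ (m.1 = k + 1 → Z m = 0)) :
    ∃ U : Finset Vx, (∀ p ∈ U, ok k W p) ∧ ∀ m, inM k m → rho k W U m = 0 ∧ ZZ k W U m = Z m ∧
      ∀ s < len k W m, uu U m s 0 = if s < Z m then 1 else 0 := by
  refine ⟨(verts k W).toFinset.filter fun p => p.2.2 ≠ 0 ∨ p.2.1 < Z p.1,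
    fun p hp => mem_verts.1 (by simp at hp; exact hp.1), fun m hm => ?_⟩
  have : ∀ s < len k W m, uu ((verts k W).toFinset.filter fun p => p.2.2 ≠ 0 ∨ p.2.1 < Z p.1) m s 0 =
      if s < Z m then 1 else 0 := fun s hs => if_congr (by
    have := h m hm
    simp [mem_verts, ok, hm, hs]; omega) rfl rfl
  refine ⟨sum_eq_zero fun s hs => sum_eq_zero fun q hq => ?_, ?_, this⟩
  · simp only [mem_range] at hs hq
    simp [uu, mem_verts, ok, hm, hs, hq]
  · rw [ZZ, sum_congr rfl fun s hs => this s (mem_range.1 hs), ← sum_filter,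
      show {s ∈ range (len k W m) | s < Z m} = range (Z m) by
        ext s; have := h m hm; simp; omega]
    simp

def WW (M : List (List Bool)) : ℕ := M.length * M.length + 1
def al (M : List (List Bool)) (k : ℕ) (m : ℕ × ℕ) (a : ℕ) : Prop :=
  (m.2 = k ∧ a < M.length) ∨ (m.1 = k ∧ ∃ v < M.length, a = M.length * v) ∨
    (m.1 < k ∧ m.2 < k ∧ ∃ u < M.length, ∃ v < M.length, a + u + M.length * v = WW M ∧
      ((m.1 = m.2 ∧ u = v) ∨ (m.1 ≠ m.2 ∧ ent M u v = true)))
def bef (M : List (List Bool)) (k : ℕ) (m : ℕ × ℕ) (p q : ℕ) : Prop := ∃ a < q + 1, p < a ∧ al M k m a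
instance (M : List (List Bool)) (k : ℕ) (m : ℕ × ℕ) : DecidableRel (bef M k m) := fun _ _ => by
  unfold bef al; infer_instance
def wt (M : List (List Bool)) (k : ℕ) (m : ℕ × ℕ) (p q : ℕ) : ℕ :=
  if bef M k m q p then 2 else if bef M k m p q then 0 else 1
def dg (k : ℕ) (m : ℕ × ℕ) : ℕ := if m.1 < k ∧ m.2 < k then 1 else k
def cst (M : List (List Bool)) (k : ℕ) (m : ℕ × ℕ) (s : ℕ) : ℕ :=
  if m.1 = k ∧ m.2 = k then lam k (WW M) else
    bet k (WW M) + dg k m * ((List.range (WW M + 1)).map (wt M k m (s / 2))).sum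
def KK (k W : ℕ) : ℕ := tR k W + k * k * (2 * W) * lam k W + k * (2 * (W + 1) * cV k W) +
  k * (2 * (W + 1) * cV k W) + k * k * (2 * (W + 1) * cE k W) + k * k * (2 * W)
def cs (k W : ℕ) : ℕ := k * k * (2 * (W + 1) * cV k W * (2 * (W + 1) * cV k W) +
  2 * (2 * (W + 1) * cV k W) * (2 * (W + 1) * cE k W) + tR k W * (2 * (W + 1) * cE k W) +
  2 * W * (lam k W - W))

section
variable {M : List (List Bool)} {k : ℕ} (U : Finset Vx)

def pen (M : List (List Bool)) (k : ℕ) (m : ℕ × ℕ) : ℤ := ∑ s ∈ range (2 * (WW M + 1)),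
  ∑ t ∈ range (2 * (WW M + 1)), uu U m s 0 * (1 - uu U m t 0) * wt M k m (s / 2) (t / 2)

lemma pen_t (m : ℕ × ℕ) (s t : ℕ) : 0 ≤ uu U m s 0 * (1 - uu U m t 0) * wt M k m (s / 2) (t / 2) :=
  mul_nonneg (mul_nonneg (by have := uu01 U m s 0; omega) (by have := uu01 U m t 0; omega)) (by simp)

variable {m : ℕ × ℕ} (h1 : m.1 ≠ k + 1) (h2 : ¬ (m.1 = k ∧ m.2 = k))
include h1 h2

lemma HH_eq : 2 * HH k (WW M) (cst M k) U m = 2 * bet k (WW M) * ZZ k (WW M) U m +
    dg k m * (ZZ k (WW M) U m ^ 2 + pen U M k m) := by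
  have := quad (fun p q => wt M k m p q) (fun p q => by
    have : bef M k m p q → ¬ bef M k m q p := fun ⟨_, _, _, _⟩ ⟨_, _, _, _⟩ => by omega
    simp only [wt]; split_ifs <;> first | rfl | tauto) (WW M + 1) fun s => uu U m s 0
  have e : ∀ s, ((List.range (WW M + 1)).map (wt M k m (s / 2))).sum =
    ∑ q ∈ range (WW M + 1), wt M k m (s / 2) q := fun _ => rfl
  simp only [HH, ZZ, pen, len, cst, h1, h2, if_false, e, ← this]
  push_cast
  simp only [mul_sum, ← sum_add_distrib]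
  exact sum_congr rfl fun s _ => by simp only [← mul_sum]; ring

lemma modl (hk : 2 ≤ k) (hr : rho k (WW M) U m ≤ (k * k + k + k) * (2 * (WW M + 1))) {δ : ℤ}
    (hδ : δ = ZZ k (WW M) U m - rho k (WW M) U m) :
    0 ≤ 2 * hh k (WW M) (cst M k) U m - (2 * bet k (WW M) * δ + dg k m * δ ^ 2) ∧
    (2 * hh k (WW M) (cst M k) U m - (2 * bet k (WW M) * δ + dg k m * δ ^ 2) ≤ 0 →
      δ = 0 ∨ δ = 2 * (WW M + 1) ∨ ∃ a, al M k m a ∧ δ = 2 * a) := by
  have d : 1 ≤ dg k m ∧ dg k m ≤ k := by unfold dg; split_ifs <;> omega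
  have a1 := hh_ge k (WW M) (cst M k) U m fun s => by
    have : ((List.range (WW M + 1)).map (wt M k m (s / 2))).sum ≤ 2 * (WW M + 1) :=
      (List.sum_le_card_nsmul _ 2 (by
        simp only [List.mem_map, wt]; rintro _ ⟨q, -, rfl⟩; split_ifs <;> omega)).trans (by simp; omega)
    have := Nat.mul_le_mul d.2 this
    have : cE k (WW M) ≤ cV k (WW M) := by unfold cV; nlinarith
    simp only [cst, cap, h1, h2, if_false]
    unfold cE at *
    split_ifs <;> omega
  have a2 := HH_eq (M := M) U h1 h2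
  have a3 : 0 ≤ pen U M k m := sum_nonneg fun s _ => sum_nonneg fun t _ => pen_t U m s t
  have a4 := rho_nn k (WW M) U m
  have a5 := (ZZ_bd k (WW M) U m).1
  have a6 : (bet k (WW M) : ℤ) = k * ((k * k + k + k) * (2 * (WW M + 1))) + 2 := by simp [bet]
  obtain ⟨d1, d2⟩ : (1 : ℤ) ≤ dg k m ∧ (dg k m : ℤ) ≤ k := by exact_mod_cast d
  have a7 := mul_le_mul d2 hr a4 (by simp)
  have a8 := mul_le_mul_of_nonneg_left a7 a4
  have a9 : 0 ≤ dg k m * ZZ k (WW M) U m * rho k (WW M) U m := by positivity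
  have a10 := mul_le_mul_of_nonneg_right d1 a3
  have a11 : 0 ≤ rho k (WW M) U m * (k * ((k * k + k + k) * (2 * (WW M + 1)))) := by positivity
  have key : pen U M k m + 2 * rho k (WW M) U m ≤
      2 * hh k (WW M) (cst M k) U m - (2 * bet k (WW M) * δ + dg k m * δ ^ 2) := by
    rw [hδ]; rw [a6] at a2 ⊢; linarith
  refine ⟨by linarith, fun h => ?_⟩
  have b1 : ∀ s < 2 * (WW M + 1), ∀ t < 2 * (WW M + 1), uu U m s 0 = 1 → uu U m t 0 = 0 →
      bef M k m (s / 2) (t / 2) := fun s hs t ht e e' => by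
    have := (single_le_sum (fun t _ => pen_t (M := M) (k := k) U m s t) (mem_range.2 ht)).trans
      (single_le_sum (fun s _ => sum_nonneg fun t _ => pen_t (M := M) (k := k) U m s t) (mem_range.2 hs))
    have : (wt M k m (s / 2) (t / 2) : ℤ) ≤ 0 := by
      rw [e, e'] at this; unfold pen at key; linarith
    unfold wt at this; split_ifs at this <;> first | assumption | omega
  have b2 : δ = ∑ s ∈ range (2 * (WW M + 1)), uu U m s 0 := by
    simp only [hδ, ZZ, len, h1, h2, if_false]; linarith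
  by_cases c : ∃ t, t < 2 * (WW M + 1) ∧ uu U m t 0 = 0
  · classical
    obtain ⟨t1, t2⟩ := Nat.find_spec c
    have t3 : ∀ s < Nat.find c, uu U m s 0 = 1 := fun s hs => (uu01 U m s 0).resolve_left
      fun e => Nat.find_min c hs ⟨by omega, e⟩
    generalize Nat.find c = t at *
    rw [← sum_subset (range_mono t1.le) fun s hs hs' => (uu01 U m s 0).resolve_right fun e => by
      obtain ⟨a, _, _, _⟩ := b1 s (mem_range.1 hs) t t1 e t2
      simp at hs'; omega, sum_congr rfl fun s hs => t3 s (mem_range.1 hs)] at b2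
    simp only [sum_const, card_range, nsmul_one] at b2
    rcases t with _ | t
    · exact Or.inl b2
    · obtain ⟨a, _, _, e⟩ := b1 t (by omega) _ t1 (t3 t (by omega)) t2
      exact Or.inr (Or.inr ⟨a, e, by omega⟩)
  · push Not at c
    rw [sum_congr rfl fun s hs => (uu01 U m s 0).resolve_left (c s (mem_range.1 hs))] at b2
    exact Or.inr (Or.inl (by simpa using b2))

end

section
variable {k W : ℕ} {c : ℕ × ℕ → ℕ → ℕ} {U : Finset Vx} (hU : ∀ p ∈ U, ok k W p) (hk : 2 ≤ k)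

def dd (k W : ℕ) (U : Finset Vx) (m : ℕ × ℕ) : ℤ := ZZ k W U m - rho k W U m

include hU

lemma card_KK : (U.card : ℤ) + k * k * (2 * W) = KK k W + ∑ m ∈ mods k, dd k W U m := by
  rw [card_eq hU, sum_congr rfl fun m hm => xx_eq hU (mem_mods.1 hm), sum_add_distrib, sum_mods]
  rw [sum_congr rfl (g := fun _ => (2 * (W + 1) * cV k W : ℤ)) fun i hi => by
      have := mem_range.1 hi
      simp [len, cap, show i ≠ k + 1 by omega, show i ≠ k by omega],
    sum_congr rfl (g := fun _ => (2 * (W + 1) * cV k W : ℤ)) (f := fun j => (len k W (k, j) : ℤ) * _)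
      fun i hi => by
      have := mem_range.1 hi
      simp [len, cap, show i ≠ k by omega],
    sum_congr rfl (g := fun _ => (k * (2 * (W + 1) * cE k W) : ℤ)) (f := fun i => ∑ j ∈ _, _)
      fun i hi => by
      rw [sum_congr rfl (g := fun _ => (2 * (W + 1) * cE k W : ℤ)) fun j hj => by
        have := mem_range.1 hi
        have := mem_range.1 hj
        simp [len, cap, show i ≠ k + 1 by omega, show i ≠ k by omega, *]]
      simp]
  simp [len, cap, KK, dd]; ring

lemma uu_R (s : ℕ) : uu U (k + 1, k + 1) s 0 = 0 := if_neg fun h => (hU _ h).2.2.2 ⟨rfl, rfl⟩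

include hk

lemma main : 2 * cross k U + ∑ i ∈ range k, (2 * bet k W * dd k W U (i, k) + k * dd k W U (i, k) ^ 2) +
    ∑ j ∈ range k, (2 * bet k W * dd k W U (k, j) + k * dd k W U (k, j) ^ 2) +
    ∑ i ∈ range k, ∑ j ∈ range k, (2 * bet k W * dd k W U (i, j) + dd k W U (i, j) ^ 2) =
    2 * cs k W + 2 * lam k W * (∑ m ∈ mods k, dd k W U m - dd k W U (k, k) - k * k * (2 * W)) +
      ∑ i ∈ range k, ∑ j ∈ range k, (dd k W U (i, k) + dd k W U (k, j) + dd k W U (i, j) - 2 * W) ^ 2 +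
      2 * rho k W U (k + 1, k + 1) * (lam k W -
        ∑ i ∈ range k, ∑ j ∈ range k, (2 * (W + 1) * cE k W + dd k W U (i, j))) := by
  have a1 : 2 * (2 * (W + 1) * cV k W) + 2 * W + bet k W ≤ lam k W := by
    have := Nat.mul_le_mul_right (2 * (W + 1) * cV k W + 2 * (W + 1) * cE k W + 2 * W) hk
    unfold lam; omega
  have := alg k (A := 2 * (W + 1) * cV k W) (E := 2 * (W + 1) * cE k W) (T := tR k W) (L := 2 * W)
    (β := bet k W) (l := lam k W) (fun i => dd k W U (i, k)) (fun j => dd k W U (k, j))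
    (fun i j => dd k W U (i, j)) (rho k W U (k + 1, k + 1)) (by simp [lam])
    (by rw [tR, Nat.cast_sub a1]; push_cast; ring)
  have e : dd k W U (k + 1, k + 1) = - rho k W U (k + 1, k + 1) := by simp [dd, ZZ, uu_R hU]
  rw [cross, sum_congr rfl fun i hi => sum_congr rfl fun j hj => by
    have := mem_range.1 hi
    have := mem_range.1 hj
    rw [xx_eq hU (m := (i, k)) (by simp [inM]; omega), xx_eq hU (m := (k, j)) (by simp [inM]; omega),
      xx_eq hU (m := (i, j)) (by simp [inM]; omega), xx_eq hU (m := (k + 1, k + 1)) (by simp [inM]),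
      ← dd, ← dd, ← dd, ← dd, e, show len k W (i, k) * (cap k W (i, k) : ℤ) = 2 * (W + 1) * cV k W by
        simp [len, cap, show i ≠ k + 1 by omega, show i ≠ k by omega],
      show len k W (k, j) * (cap k W (k, j) : ℤ) = 2 * (W + 1) * cV k W by
        simp [len, cap, show j ≠ k by omega],
      show len k W (i, j) * (cap k W (i, j) : ℤ) = 2 * (W + 1) * cE k W by
        simp [len, cap, show i ≠ k + 1 by omega, show i ≠ k by omega, *],
      show len k W (k + 1, k + 1) * (cap k W (k + 1, k + 1) : ℤ) = tR k W by simp [len, cap],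
      ← sub_eq_add_neg], this, sum_mods, e, cs]
  push_cast [Nat.cast_sub (show W ≤ lam k W by omega)]
  ring

end

lemma back {M : List (List Bool)} {k : ℕ} {U : Finset Vx} (hU : ∀ p ∈ U, ok k (WW M) p) (hk : 2 ≤ k)
    (h1 : U.card = KK k (WW M))
    (h2 : ∑ m ∈ mods k, hh k (WW M) (cst M k) U m + cross k U ≤ cs k (WW M)) :
    ∃ v : ℕ → ℕ, ∀ i < k, v i < M.length ∧ ∀ j < k, i ≠ j → ent M (v i) (v j) = true := by
  have a1 := card_KK hU
  rw [h1, add_right_inj] at a1
  have zl : ∀ m : ℕ × ℕ, m.1 ≠ k + 1 → ¬ (m.1 = k ∧ m.2 = k) → ZZ k (WW M) U m ≤ 2 * (WW M + 1) :=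
    fun m a b => by simpa [len, a, b] using (ZZ_bd k (WW M) U m).2
  have sb : ∀ (g : ℕ → ℤ) (b : ℤ), (∀ i < k, g i ≤ b) → ∑ i ∈ range k, g i ≤ k * b := fun g b h => by
    simpa using sum_le_card_nsmul (range k) g b fun i hi => h i (mem_range.1 hi)
  have a2 : ∀ m, inM k m → rho k (WW M) U m ≤ (k * k + k + k) * (2 * (WW M + 1)) := fun m hm => by
    have b1 := single_le_sum (fun m _ => rho_nn k (WW M) U m) (mem_mods.2 hm)
    have b2 := (ZZ_bd k (WW M) U (k, k)).2
    have b3 := sb _ _ fun i hi => zl (i, k) (by simp; omega) (by simp; omega)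
    have b4 := sb _ _ fun i hi => zl (k, i) (by simp) (by simp; omega)
    have b5 := sb _ _ fun i hi => sb _ _ fun j hj => zl (i, j) (by simp; omega) (by simp; omega)
    simp only [dd, sum_sub_distrib] at a1
    rw [sum_mods k (ZZ _ _ _), show ZZ k (WW M) U (k + 1, k + 1) = 0 by simp [ZZ, uu_R hU]] at a1
    simp [len] at b2
    linarith
  have mA := fun i (hi : i < k) => modl U (m := (i, k)) (by simp; omega) (by simp; omega) hk
    (a2 _ (by simp [inM]; omega)) (δ := dd k (WW M) U (i, k)) rfl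
  have mB := fun i (hi : i < k) => modl U (m := (k, i)) (by simp) (by simp; omega) hk
    (a2 _ (by simp [inM]; omega)) (δ := dd k (WW M) U (k, i)) rfl
  have mE := fun i (hi : i < k) j (hj : j < k) => modl U (m := (i, j)) (by simp; omega)
    (by simp; omega) hk (a2 _ (by simp [inM]; omega)) (δ := dd k (WW M) U (i, j)) rfl
  simp only [dg, lt_irrefl, and_false, false_and, if_false] at mA mB
  simp +contextual only [dg, true_and, if_true, Nat.cast_one, one_mul] at mE
  have sA := sum_nonneg fun i hi => (mA i (mem_range.1 hi)).1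
  have sB := sum_nonneg fun i hi => (mB i (mem_range.1 hi)).1
  have sE := sum_nonneg fun i hi => sum_nonneg fun j hj => (mE i (mem_range.1 hi) j (mem_range.1 hj)).1
  have sQ : 0 ≤ ∑ i ∈ range k, ∑ j ∈ range k, (dd k (WW M) U (i, k) + dd k (WW M) U (k, j) +
    dd k (WW M) U (i, j) - 2 * WW M) ^ 2 := by positivity
  have a3 := main hU hk
  have a4 : lam k (WW M) * dd k (WW M) U (k, k) ≤ hh k (WW M) (cst M k) U (k, k) := by
    have b1 := hh_ge k (WW M) (cst M k) U (k, k) (by simp [cst, cap])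
    have b2 : (1 : ℤ) ≤ lam k (WW M) := by unfold lam bet; exact_mod_cast (by omega)
    have := mul_le_mul_of_nonneg_right b2 (rho_nn k (WW M) U (k, k))
    simp only [HH, cst, and_self, if_true, ← sum_mul] at b1
    rw [dd, ZZ]; linarith
  have a5 := hh_nn k (WW M) (cst M k) U (k + 1, k + 1)
  have a6 := mul_nonneg (rho_nn k (WW M) U (k + 1, k + 1)) (sub_nonneg.2 ((sb _ _ fun i hi => sb _ _
    fun j hj => show (2 * (WW M + 1) * cE k (WW M) : ℤ) + dd k (WW M) U (i, j) ≤
      2 * (WW M + 1) * (cE k (WW M) + 1) by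
      have := zl (i, j) (by simp; omega) (by simp; omega)
      have := rho_nn k (WW M) U (i, j)
      unfold dd; linarith).trans (show _ ≤ (lam k (WW M) : ℤ) by
        simp only [lam, cV]; push_cast
        have : (0 : ℤ) ≤ k * (2 * (WW M + 1) * cE k (WW M) + 2 * WW M) + bet k (WW M) := by positivity
        linarith)))
  rw [sum_mods] at h2
  rw [← a1] at a3
  have tA := fun i (hi : i < k) => (mA i hi).2 ((single_le_sum (fun i hi =>
    (mA i (mem_range.1 hi)).1) (mem_range.2 hi)).trans (by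
      simp only [sum_sub_distrib, ← mul_sum] at sA sB sE ⊢; linarith))
  have tB := fun i (hi : i < k) => (mB i hi).2 ((single_le_sum (fun i hi =>
    (mB i (mem_range.1 hi)).1) (mem_range.2 hi)).trans (by
      simp only [sum_sub_distrib, ← mul_sum] at sA sB sE ⊢; linarith))
  have tE := fun i (hi : i < k) j (hj : j < k) => (mE i hi j hj).2 (((single_le_sum (fun j hj =>
    (mE i hi j (mem_range.1 hj)).1) (mem_range.2 hj)).trans (single_le_sum (fun i hi => sum_nonneg
      fun j hj => (mE i (mem_range.1 hi) j (mem_range.1 hj)).1) (mem_range.2 hi))).trans (by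
      simp only [sum_sub_distrib, ← mul_sum] at sA sB sE ⊢; linarith))
  have tQ : ∀ i < k, ∀ j < k, dd k (WW M) U (i, k) + dd k (WW M) U (k, j) + dd k (WW M) U (i, j) =
      2 * WW M := fun i hi j hj => by
    have := (sum_eq_zero_iff_of_nonneg fun i _ => by positivity).1 (le_antisymm (by
      simp only [sum_sub_distrib, ← mul_sum] at sA sB sE; linarith) sQ) i (mem_range.2 hi)
    have := (sum_eq_zero_iff_of_nonneg fun i _ => by positivity).1 this j (mem_range.2 hj)
    simpa [sub_eq_zero] using this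
  have key : ∀ i < k, ∀ j < k, ∃ u < M.length, ∃ v < M.length, dd k (WW M) U (i, k) = 2 * u ∧
      dd k (WW M) U (k, j) = 2 * (M.length * v : ℕ) ∧ ((i = j ∧ u = v) ∨ (i ≠ j ∧ ent M u v = true)) :=
    fun i hi j hj => by
    have q := tQ i hi j hj
    have b1 := tA i hi
    have b2 := tB j hj
    have b3 := tE i hi j hj
    simp only [al, hi.ne, hj.ne, hi, hj, lt_irrefl, true_and, false_and, and_false, or_false,
      false_or] at b1 b2 b3
    have n1 : 0 ≤ dd k (WW M) U (i, k) := by rcases b1 with b | b | ⟨_, -, b⟩ <;> rw [b] <;> positivity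
    have n2 : 0 ≤ dd k (WW M) U (k, j) := by rcases b2 with b | b | ⟨_, -, b⟩ <;> rw [b] <;> positivity
    have n3 : 0 ≤ dd k (WW M) U (i, j) := by rcases b3 with b | b | ⟨_, -, b⟩ <;> rw [b] <;> positivity
    obtain ⟨u, u1, u2⟩ : ∃ u : ℕ, (u = 0 ∨ u < M.length) ∧ dd k (WW M) U (i, k) = 2 * u := by
      rcases b1 with b | b | ⟨u, b⟩
      exacts [⟨0, by simp [b]⟩, by exfalso; linarith, ⟨u, Or.inr b.1, b.2⟩]
    obtain ⟨v, v1, v2⟩ : ∃ v : ℕ, (v = 0 ∨ v < M.length) ∧
        dd k (WW M) U (k, j) = 2 * (M.length * v : ℕ) := by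
      rcases b2 with b | b | ⟨_, ⟨v, b, rfl⟩, b'⟩
      exacts [⟨0, by simp [b]⟩, by exfalso; linarith, ⟨v, Or.inr b, b'⟩]
    clear b1 b2
    have : u + M.length * v < WW M := by
      unfold WW
      rcases u1 with rfl | u1 <;> rcases v1 with rfl | v1 <;> nlinarith
    rcases b3 with _ | _ | ⟨a, ⟨u', a1, v', a2, a3, a4⟩, a5⟩
    · omega
    · omega
    have e : u + M.length * v = u' + M.length * v' := by omega
    obtain rfl : u = u' := by
      have := congrArg (· % M.length) e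
      simpa [Nat.mod_eq_of_lt a1, Nat.mod_eq_of_lt (show u < M.length by omega)] using this
    obtain rfl : v = v' := Nat.eq_of_mul_eq_mul_left (show 0 < M.length by omega) (by omega)
    exact ⟨u, a1, v, a2, u2, v2, a4⟩
  refine ⟨fun i => (dd k (WW M) U (i, k) / 2).toNat, fun i hi => ⟨?_, fun j hj e => ?_⟩⟩
  · obtain ⟨u, _, _, _, _, -⟩ := key i hi i hi
    simp only; omega
  · obtain ⟨u, _, v, _, a1, a2, a3⟩ := key i hi j hj
    obtain ⟨u', _, v', _, b1, b2, b3⟩ := key j hj j hj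
    obtain rfl : v = v' := Nat.eq_of_mul_eq_mul_left (show 0 < M.length by omega) (by omega)
    obtain rfl : u' = v := by omega
    simpa [a1, b1, e] using a3

lemma forth {M : List (List Bool)} {k : ℕ} (hk : 2 ≤ k) {v : ℕ → ℕ}
    (hv : ∀ i < k, v i < M.length ∧ ∀ j < k, i ≠ j → ent M (v i) (v j) = true) :
    ∃ U : Finset Vx, (∀ p ∈ U, ok k (WW M) p) ∧ U.card = KK k (WW M) ∧
      ∑ m ∈ mods k, hh k (WW M) (cst M k) U m + cross k U ≤ cs k (WW M) := by
  let a : ℕ × ℕ → ℕ := fun m => if m.2 = k then v m.1 else if m.1 = k then M.length * v m.2 else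
    WW M - v m.1 - M.length * v m.2
  have a1 : ∀ i < k, ∀ j < k, a (i, k) + a (k, j) + a (i, j) = WW M ∧ al M k (i, k) (a (i, k)) ∧
      al M k (k, j) (a (k, j)) ∧ al M k (i, j) (a (i, j)) := fun i hi j hj => by
    have b1 := hv i hi
    have b2 := hv j hj
    have : v i + M.length * v j < WW M := by unfold WW; nlinarith [b1.1, b2.1]
    simp only [a, al, hi.ne, hj.ne, if_true, if_false]
    refine ⟨by omega, by simp [b1.1], Or.inr (Or.inl ⟨trivial, _, b2.1, rfl⟩), Or.inr (Or.inr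
      ⟨hi, hj, _, b1.1, _, b2.1, by omega, ?_⟩)⟩
    by_cases e : i = j
    exacts [Or.inl ⟨e, by rw [e]⟩, Or.inr ⟨e, b1.2 j hj e⟩]
  let S := ∑ i ∈ range k, 2 * a (i, k) + ∑ j ∈ range k, 2 * a (k, j) +
    ∑ i ∈ range k, ∑ j ∈ range k, 2 * a (i, j)
  have a2 : S ≤ k * k * (2 * WW M) := by
    have : ∑ i ∈ range k, ∑ j ∈ range k, (2 * a (i, k) + 2 * a (k, j) + 2 * a (i, j)) =
        ∑ i ∈ range k, ∑ j ∈ range k, 2 * WW M := sum_congr rfl fun i hi => sum_congr rfl fun j hj => by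
      have := (a1 i (mem_range.1 hi) j (mem_range.1 hj)).1; omega
    simp only [sum_add_distrib, sum_const, card_range, smul_eq_mul, ← mul_sum] at this
    simp only [S, ← mul_sum]
    nlinarith [Nat.zero_le (∑ i ∈ range k, a (i, k)), Nat.zero_le (∑ i ∈ range k, a (k, i))]
  have a3 : ∀ m, inM k m → m.1 ≠ k + 1 → ¬ (m.1 = k ∧ m.2 = k) → a m ≤ WW M ∧ al M k m (a m) := by
    rintro ⟨i, j⟩ h h1 h2
    simp only [inM] at h h1 h2
    by_cases e : j = k
    · have := a1 i (by omega) 0 (by omega); subst e; exact ⟨by omega, this.2.1⟩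
    by_cases e' : i = k
    · have := a1 0 (by omega) j (by omega); subst e'; exact ⟨by omega, this.2.2.1⟩
    · have := a1 i (by omega) j (by omega); exact ⟨by omega, this.2.2.2⟩
  obtain ⟨U, hU, h⟩ := pre (k := k) (W := WW M) (fun m => if m.1 = k + 1 then 0 else
    if m.1 = k ∧ m.2 = k then k * k * (2 * WW M) - S else 2 * a m) fun m hm => by
      have := fun h1 h2 => (a3 m hm h1 h2).1
      simp only [len]; split_ifs <;> omega
  have b1 : ∀ m, inM k m → m.1 ≠ k + 1 → ¬ (m.1 = k ∧ m.2 = k) → dd k (WW M) U m = 2 * a m ∧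
      2 * hh k (WW M) (cst M k) U m ≤ 2 * bet k (WW M) * dd k (WW M) U m +
        dg k m * dd k (WW M) U m ^ 2 := fun m hm h1 h2 => by
    obtain ⟨c1, c2, c3⟩ := h m hm
    simp only [len, h1, h2, if_false] at c2 c3
    have : pen U M k m = 0 := sum_eq_zero fun s hs => sum_eq_zero fun t ht => by
      rw [c3 s (mem_range.1 hs), c3 t (mem_range.1 ht)]
      split_ifs with d1 d2 <;> try simp
      rw [wt, if_neg (by rintro ⟨_, _, _, _⟩; omega), if_pos ⟨a m, by omega, by omega,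
        (a3 m hm h1 h2).2⟩]
    have e := HH_eq (M := M) U h1 h2
    have := hh_le k (WW M) (cst M k) U m
    exact ⟨by simp [dd, c1, c2], by simp only [dd, c1, sub_zero]; simp only [*] at e ⊢; linarith⟩
  have bA := fun i (hi : i ∈ range k) => b1 (i, k) (by simp [inM] at *; omega) (by simp at *; omega)
    (by simp at *; omega)
  have bB := fun i (hi : i ∈ range k) => b1 (k, i) (by simp [inM] at *; omega) (by simp)
    (by simp at *; omega)
  have bE := fun i (hi : i ∈ range k) j (hj : j ∈ range k) => b1 (i, j) (by simp [inM] at *; omega)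
    (by simp at *; omega) (by simp at *; omega)
  have bR := h (k + 1, k + 1) (by simp [inM])
  have bY := h (k, k) (by simp [inM])
  have b2 : ∑ m ∈ mods k, dd k (WW M) U m = k * k * (2 * WW M) := by
    rw [sum_mods, sum_congr rfl fun i hi => (bA i hi).1, sum_congr rfl fun i hi => (bB i hi).1,
      sum_congr rfl fun i hi => sum_congr rfl fun j hj => (bE i hi j hj).1, dd, dd, bR.1, bR.2.1,
      bY.1, bY.2.1]
    simp [Nat.cast_sub a2, S]; ring
  have b3 := card_KK hU
  refine ⟨U, hU, by omega, ?_⟩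
  have b4 := main hU hk
  rw [b2, bR.1, sum_eq_zero (f := fun i => ∑ j ∈ range k, (_ - _) ^ 2) fun i hi => sum_eq_zero
    fun j hj => by
      have := (a1 i (mem_range.1 hi) j (mem_range.1 hj)).1
      rw [(bA i hi).1, (bB j hj).1, (bE i hi j hj).1, ← this]; push_cast; ring] at b4
  have cA := sum_le_sum fun i hi => (bA i hi).2
  have cB := sum_le_sum fun i hi => (bB i hi).2
  have cE := sum_le_sum fun i hi => sum_le_sum fun j hj => (bE i hi j hj).2.trans_eq
    (show _ = 2 * bet k (WW M) * dd k (WW M) U (i, j) + dd k (WW M) U (i, j) ^ 2 by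
      simp at hi hj; simp [dg, hi, hj])
  have cR : hh k (WW M) (cst M k) U (k + 1, k + 1) = 0 := by simp [hh, uu_R hU]
  have cY := hh_le k (WW M) (cst M k) U (k, k)
  simp only [HH, cst, and_self, if_true, ← sum_mul] at cY
  simp only [dg, lt_irrefl, and_false, false_and, if_false, ← mul_sum] at cA cB cE
  rw [sum_mods]
  rw [dd, bY.1, ZZ] at b4
  linarith

lemma built {V : Type} [Finite V] {G : SimpleGraph V} {k W : ℕ} {c : ℕ × ℕ → ℕ → ℕ} {f : V → Vx}
    (h1 : ∀ a b, G.Adj a b ↔ adj k c (f a) (f b)) (h2 : ∀ p, (∃ a, f a = p) ↔ ok k W p)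
    (h3 : f.Injective) (hk : 2 ≤ k) (hW : 0 < W) : mw G ≤ (k + 1) * (k + 1) + 1 := by
  have l : ∀ m, ¬ lk k m m := fun m => by unfold lk; omega
  let e := (mods k).equivFin.symm
  have u : ⋃ i, {a | (f a).1 = e i} = Set.univ := Set.eq_univ_of_forall fun a => Set.mem_iUnion.2
    ⟨e.symm ⟨_, mem_mods.2 ((h2 _).1 ⟨a, rfl⟩).1⟩, by simp⟩
  refine Nat.sInf_le (u ▸ Built.subst (SimpleGraph.fromRel fun i j => ¬ lk k (e i) (e j) ∧
    ¬ lk k (e j) (e i)) _ (by simp [mods]) ((card_insert_le _ _).trans (by simp)) (fun i => ?_)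
    (fun i j h => Set.disjoint_left.2 fun a (b : _ = _) d => h (e.injective (Subtype.ext
      (b.symm.trans d)))) fun i j h a (ha : _ = _) b (hb : _ = _) => ?_)
  · obtain ⟨m, hm⟩ := e i
    have x : ∀ {a b s}, (f a).1 = m → (f b).1 = m → (f a).2.1 = s → (f b).2.1 = s →
        (f a).2.2 = (f b).2.2 → a = b := fun a1 a2 a3 a4 a5 =>
      h3 (Prod.ext (a1.trans a2.symm) (Prod.ext (a3.trans a4.symm) a5))
    refine (joins (fun a => (f a).2.1) (fun s => joins (fun a => if (f a).2.2 ≤ c m s then 0 else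
      (f a).2.2) (fun q => ?_) ?_) ?_).resolve_left (Set.Nonempty.ne_empty ?_)
    · rcases q with _ | q
      · convert cup (G := G) (A := {a | (f a).1 = m ∧ (f a).2.1 = s ∧ (f a).2.2 = 0})
          (B := {a | (f a).1 = m ∧ (f a).2.1 = s ∧ (f a).2.2 ≠ 0 ∧ (f a).2.2 ≤ c m s})
          (sub1 fun a ha b hb => x ha.1 hb.1 ha.2.1 hb.2.1 (ha.2.2.trans hb.2.2.symm))
          (joins (fun a => (f a).2.2) (fun q => sub1 fun a ha b hb => x ha.1.1 hb.1.1 ha.1.2.1
            hb.1.2.1 (ha.2.trans hb.2.symm)) fun a ha b hb d => (h1 _ _).2 ⟨fun h => d (by rw [h]),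
              fun h => ha.2.2.1 h.2.2.1, fun h => hb.2.2.1 h.2.2.1, by simp [ha.1, hb.1, l]⟩)
          (Set.disjoint_left.2 fun a b d => d.2.2.1 b.2.2) (Or.inr fun a ha b hb d =>
            ((h1 _ _).1 d).2.1 ⟨ha.1.trans hb.1.symm, ha.2.1.trans hb.2.1.symm, ha.2.2,
              Nat.pos_of_ne_zero hb.2.2.1, by rw [ha.1, ha.2.1]; exact hb.2.2.2⟩) <;>
          (ext a; simp only [Set.mem_ofPred_eq, Set.mem_union, and_assoc, ← and_or_left]
           refine and_congr_right fun _ => and_congr_right fun _ => ?_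
           split_ifs <;> omega)
      · exact sub1 fun a ha b hb => x ha.1.1 hb.1.1 ha.1.2 hb.1.2 (by
          have := ha.2; have := hb.2; split_ifs at *; omega)
    · rintro a ⟨a1 : _ = m, a2⟩ b ⟨b1 : _ = m, b2⟩ d
      refine (h1 _ _).2 ⟨fun h => d (by rw [h]), fun h => d ?_, fun h => d ?_, by simp [a1, b1, l]⟩
      · have := h.2.2; rw [a1, a2] at this; split_ifs <;> omega
      · have := h.2.2; rw [b1, b2] at this; split_ifs <;> omega
    · exact fun a (a1 : _ = _) b (b1 : _ = _) d => (h1 _ _).2 ⟨fun h => d (by rw [h]),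
        fun h => d h.2.1, fun h => d h.2.1.symm, by simp [a1, b1, l]⟩
    · have : 0 < tR k W := by
        have := Nat.mul_le_mul_right (2 * (W + 1) * cV k W + 2 * (W + 1) * cE k W + 2 * W) hk
        unfold tR lam; omega
      have : 0 < k * k * (2 * W) := by positivity
      obtain ⟨a, ha⟩ := (h2 (m, 0, cap k W m)).2 ⟨mem_mods.1 hm, by simp only [len]; split_ifs <;> omega,
        le_rfl, by simp only [cap]; split_ifs <;> omega⟩
      exact ⟨a, by simp [ha]⟩
  · have : (f a).1 ≠ (f b).1 := fun d => h (e.injective (Subtype.ext (by rw [← ha, ← hb, d])))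
    simp only [h1, adj, SimpleGraph.fromRel_adj, ← ha, ← hb]
    exact ⟨fun d => ⟨h, Or.inl d.2.2.2⟩, fun d => ⟨fun d => this (by rw [d]), fun d => this d.1,
      fun d => this d.1.symm, by tauto⟩⟩

abbrev Inst := List (List Bool) × ℕ × ℕ

def red (I : List (List Bool) × ℕ) : Inst :=
  if I.2 < 2 then ([[false]], 0, I.2 - I.1.length) else
    (mat (verts I.2 (WW I.1)) fun p q => decide (adj I.2 (cst I.1 I.2) p q), KK I.2 (WW I.1),
      KK I.2 (WW I.1) * (KK I.2 (WW I.1) - 1) / 2 - cs I.2 (WW I.1))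

lemma red_pt : PT red := by
  have w : PT WW := by unfold WW; fun_prop
  have a1 : PT fun p : ℕ × ℕ => bet p.1 p.2 := by unfold bet; fun_prop
  have a2 : PT fun p : ℕ × ℕ => cE p.1 p.2 := by unfold cE; fun_prop
  have a3 : PT fun p : ℕ × ℕ => cV p.1 p.2 := by unfold cV; fun_prop
  have a4 : PT fun p : ℕ × ℕ => lam p.1 p.2 := by unfold lam; fun_prop
  have a5 : PT fun p : ℕ × ℕ => tR p.1 p.2 := by unfold tR; fun_prop
  have a6 : PT fun p : ℕ × ℕ => KK p.1 p.2 := by unfold KK; fun_prop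
  have a7 : PT fun p : ℕ × ℕ => cs p.1 p.2 := by unfold cs; fun_prop
  have a8 : PT fun p : ℕ × ℕ × ℕ × ℕ => len p.1 p.2.1 p.2.2 :=
    PP.ite (by fun_prop) (by fun_prop) (PP.ite (by fun_prop) (by fun_prop) (by fun_prop))
  have a9 : PT fun p : ℕ × ℕ × ℕ × ℕ => cap p.1 p.2.1 p.2.2 :=
    PP.ite (by fun_prop) (by fun_prop) (PP.ite (by fun_prop) (by fun_prop)
      (PP.ite (by fun_prop) (by fun_prop) (by fun_prop)))
  have b1 : PT fun p : ℕ × ℕ => verts p.1 p.2 :=
    PT.filter (PP.decide (by unfold ok inM; fun_prop)) (by fun_prop)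
  have b2 : PP fun p : List (List Bool) × ℕ × (ℕ × ℕ) × ℕ × ℕ =>
      bef p.1 p.2.1 p.2.2.1 p.2.2.2.1 p.2.2.2.2 := by unfold bef al; fun_prop
  have b3 : PT fun p : List (List Bool) × ℕ × (ℕ × ℕ) × ℕ × ℕ =>
      wt p.1 p.2.1 p.2.2.1 p.2.2.2.1 p.2.2.2.2 :=
    PP.ite (by fun_prop) (by fun_prop) (PP.ite (by fun_prop) (by fun_prop) (by fun_prop))
  have b4 : PT fun p : ℕ × ℕ × ℕ => dg p.1 p.2 := PP.ite (by fun_prop) (by fun_prop) (by fun_prop)
  have b5 : PT fun p : List (List Bool) × ℕ × (ℕ × ℕ) × ℕ => cst p.1 p.2.1 p.2.2.1 p.2.2.2 :=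
    PP.ite (by fun_prop) (by fun_prop) (by fun_prop)
  refine PP.ite (by fun_prop) (by fun_prop) (PT.pair (PT.mat (by fun_prop) (PP.decide ?_))
    (by fun_prop))
  unfold adj star lk; fun_prop

lemma big {M : List (List Bool)} {k : ℕ} (hM : IsGraph M) (hk : 2 ≤ k) :
    IsGraph (red (M, k)).1 ∧ (¬ (graphOf M).CliqueFree k ↔ Dense (red (M, k))) ∧
      mw (graphOf (red (M, k)).1) ≤ (k + 1) * (k + 1) + 1 := by
  classical
  have r : red (M, k) = (mat (verts k (WW M)) fun p q => decide (adj k (cst M k) p q), KK k (WW M),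
    KK k (WW M) * (KK k (WW M) - 1) / 2 - cs k (WW M)) := if_neg (by simpa)
  rw [r]
  obtain ⟨g, f, h1, h2, h3, -⟩ := graph_kit (verts k (WW M)) (adj k (cst M k))
    (fun p q h => ⟨h.1.symm, by have := h.2; tauto⟩) (fun p h => h.1 rfl)
    (((List.nodup_range.product List.nodup_range).product
      (List.nodup_range.product List.nodup_range)).filter _) rfl
  simp only [mem_verts] at h2
  refine ⟨g, ?_, built h1 h2 h3 hk (by simp [WW])⟩
  have e : ∀ S : Finset _, S.card = KK k (WW M) → (2 * ((graphOf (mat (verts k (WW M)) fun p q =>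
      decide (adj k (cst M k) p q))).induce S).edgeSet.ncard : ℤ) + 2 * (∑ m ∈ mods k, hh k (WW M)
        (cst M k) (S.image f) m + cross k (S.image f)) = (KK k (WW M) * (KK k (WW M) - 1) : ℕ) :=
    fun S hS => by
    have := total (cst M k) (U := S.image f) (k := k) (W := WW M) (by
      simp only [mem_image]; rintro _ ⟨a, -, rfl⟩; exact (h2 _).1 ⟨a, rfl⟩)
    simp only [sum_image h3.injOn, ← h1, card_image_of_injective _ h3, hS] at this
    rw [two_edges, this]
    rcases KK k (WW M) with _ | n <;> simp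
  have s : ∀ U : Finset Vx, (∀ p ∈ U, ok k (WW M) p) → ∃ S : Finset _, S.image f = U := fun U hU =>
    ⟨univ.filter fun a => f a ∈ U, by
      ext p; simp only [mem_image, mem_filter, mem_univ, true_and]
      exact ⟨fun ⟨a, b, c⟩ => c ▸ b, fun h => let ⟨a, b⟩ := (h2 p).2 (hU p h); ⟨a, b ▸ h, b⟩⟩⟩
  constructor
  · intro h
    have φ := SimpleGraph.topEmbeddingOfNotCliqueFree h
    obtain ⟨U, u1, u2, u3⟩ := forth (M := M) hk (v := fun i => if h : i < k then φ ⟨i, h⟩ else 0)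
      fun i hi => ⟨by simp [hi], fun j hj d => by
        simpa [hi, hj, ← adj_iff hM] using
          φ.map_rel_iff.2 (show (⊤ : SimpleGraph (Fin k)).Adj ⟨i, hi⟩ ⟨j, hj⟩ by simpa)⟩
    obtain ⟨S, rfl⟩ := s U u1
    rw [card_image_of_injective _ h3] at u2
    have := e S u2
    exact ⟨S, u2.le, by simp only; omega⟩
  · rintro ⟨S, s1, s2⟩
    obtain ⟨U, u1, u2⟩ := pre (k := k) (W := WW M) (fun m => if m.1 = k ∧ m.2 = k then
      k * k * (2 * WW M) else 0) fun m _ => by simp only [len]; split_ifs <;> omega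
    have u3 := card_KK u1
    rw [sum_eq_single (k, k) (fun m hm d => by
      simp [dd, u2 m (mem_mods.1 hm), show ¬ (m.1 = k ∧ m.2 = k) from fun h => d (Prod.ext h.1 h.2)])
      (by simp [mods]), dd, (u2 _ (by simp [inM])).1, (u2 _ (by simp [inM])).2.1] at u3
    obtain ⟨T, rfl⟩ := s U u1
    obtain ⟨S', t1, t2⟩ := exists_superset_card_eq s1 (card_le_univ T |>.trans' (by
      simp [card_image_of_injective _ h3] at u3 ⊢; omega))
    have b1 := e S' t2
    have b2 := two_edges (G := graphOf (mat (verts k (WW M)) fun p q => decide (adj k (cst M k) p q))) S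
    have b3 := (two_edges S').trans_ge ((sum_le_sum_of_subset_of_nonneg t1 fun _ _ _ => by
      positivity).trans' (sum_le_sum fun _ _ => sum_le_sum_of_subset_of_nonneg t1 fun _ _ _ => by
        positivity)) |>.trans' b2.le
    obtain ⟨v, hv⟩ := back (U := S'.image f) (M := M) (by
      simp only [mem_image]; rintro _ ⟨a, -, rfl⟩; exact (h2 _).1 ⟨a, rfl⟩) hk
      (by rw [card_image_of_injective _ h3, t2]) (by simp only at s2; omega)
    have a : ∀ i j : Fin k, i ≠ j → (graphOf M).Adj ⟨v i, (hv i i.2).1⟩ ⟨v j, (hv j j.2).1⟩ :=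
      fun i j d => (adj_iff hM _ _).2 ((hv i i.2).2 j j.2 (Fin.val_ne_of_ne d))
    exact SimpleGraph.IsContained.not_cliqueFree ⟨⟨fun i => ⟨v i, (hv i i.2).1⟩, fun d => a _ _ d⟩,
      fun i j d => by_contra fun c => (a i j c).ne d⟩

/-- CLIQUE reduces to `P` in polynomial time with the parameter `κ` bounded in the clique size -/
def WHard {α : Type} [Enc α] (P : α → Prop) (κ : α → ℕ) : Prop :=
  ∃ (F : List Bool → List Bool) (g : ℕ → ℕ), PolyTime F ∧ Computable g ∧
    ∀ (M : List (List Bool)) (k : ℕ), IsGraph M →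
      ∃ a, F (enc (M, k)) = enc a ∧ (¬ (graphOf M).CliqueFree k ↔ P a) ∧ κ a ≤ g k

theorem result : WHard (fun z : Inst => IsGraph z.1 ∧ Dense z) fun z => mw (graphOf z.1) := by
  refine ⟨fun x => enc (red (decode x)), fun k => (k + 1) * (k + 1) + 1,
    polyTime_of_PT (red_pt.comp (by fun_prop)), (Primrec.nat_add.comp (Primrec.nat_mul.comp
      Primrec.succ Primrec.succ) (Primrec.const 1)).to_comp, fun M k hM => ⟨red (M, k), by simp, ?_⟩⟩
  by_cases hk : 2 ≤ k
  · have := big hM hk; tauto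
  rw [show red (M, k) = ([[false]], 0, k - M.length) from if_pos (by simpa using hk)]
  refine ⟨?_, Nat.sInf_le ?_⟩
  · trans k - M.length = 0
    · obtain rfl | rfl : k = 0 ∨ k = 1 := by omega
      · simp
      · simp [← Fin.pos_iff_nonempty, Nat.sub_eq_zero_iff_le, Nat.succ_le_iff]
    · have : ∀ i j, ¬ Entry [[false]] i j := by rintro (_ | i) (_ | j) <;> simp [Entry]
      have : graphOf [[false]] = ⊥ := by ext; simp [graphOf, this]
      simp [Dense, IsGraph, *]
  · change Built (graphOf [[false]]) _ _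
    convert Built.single (G := graphOf [[false]]) ⟨0, by simp⟩
    ext ⟨a, h⟩; simp at h ⊢; omega

end Pool.Agent.Results.MP_93e790_lc.W1Hard
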